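import Mathlib
import Pool.Agent.Q3.BestPhi.Lim

/-!
# MP_7453a1_nt: `g ≤ φ₄` for the Euclidean norm and for all norms close to it (`m = 1`, `n = 2`)
-/

set_option autoImplicit false

open Filter Topology

namespace Pool.Agent.Results.MP_7453a1_nt.EuclideanUpperBound

/-- The Euclidean norm on `ℝ²`. -/
noncomputable def eucNorm (v : ℝ × ℝ) : ℝ := √(v.1 ^ 2 + v.2 ^ 2)

/-- `x Θ` is not an integer vector for any integer `x ≠ 0`. -/
def Star (Θ : ℝ × ℝ) : Prop := ∀ x : ℤ, x ≠ 0 → ¬ ∃ y₁ y₂ : ℤ, x * Θ.1 = y₁ ∧ x * Θ.2 = y₂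

/-- `z = (x, y₁, y₂)` is a best approximation vector to `Θ` for the norm `N`: `x ≠ 0`, and the only
`z' = (x', y')` with `|x'| ≤ |x|` and `N (x' Θ - y') ≤ N (x Θ - y)` are `0` and `± z`. -/
def Best (N : ℝ × ℝ → ℝ) (Θ : ℝ × ℝ) (z : ℤ × ℤ × ℤ) : Prop :=
  z.1 ≠ 0 ∧ ∀ z' : ℤ × ℤ × ℤ, |z'.1| ≤ |z.1| →
    N (z'.1 * Θ.1 - z'.2.1, z'.1 * Θ.2 - z'.2.2) ≤ N (z.1 * Θ.1 - z.2.1, z.1 * Θ.2 - z.2.2) →
      z' = 0 ∨ z' = z ∨ z' = -z

/-- `m` is the first coordinate `|x|` of a best approximation vector (up to sign, `x = m`). -/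
def IsDenom (N : ℝ × ℝ → ℝ) (Θ : ℝ × ℝ) (m : ℕ) : Prop :=
  ∃ y₁ y₂ : ℤ, Best N Θ ((m : ℤ), y₁, y₂)

/-- `M_ν`, `ν ≥ 1`: the `ν`-th smallest first coordinate of a best approximation vector. -/
noncomputable def M (N : ℝ × ℝ → ℝ) (Θ : ℝ × ℝ) (ν : ℕ) : ℕ := Nat.nth (IsDenom N Θ) (ν - 1)

/-- `G(Θ) = liminf M_ν ^ (1/ν)`, in the extended reals. -/
noncomputable def G (N : ℝ × ℝ → ℝ) (Θ : ℝ × ℝ) : EReal :=
  liminf (fun ν : ℕ => (((M N Θ ν : ℝ) ^ (1 / (ν : ℝ)) : ℝ) : EReal)) atTop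

/-- `g`, the infimum of `G(Θ)` over all `Θ` with `(∗)`. -/
noncomputable def g (N : ℝ × ℝ → ℝ) : EReal := sInf {t | ∃ Θ, Star Θ ∧ t = G N Θ}

/-- `N` is, up to a constant factor, between the Euclidean norm and `1.14` times the Euclidean norm. -/
def Close (N : ℝ × ℝ → ℝ) : Prop :=
  ∃ r : ℝ, 0 < r ∧ ∀ v : ℝ × ℝ, r * eucNorm v ≤ N v ∧ N v ≤ 1.14 * r * eucNorm v

theorem near_of_close {N : ℝ × ℝ → ℝ} (h : Close N) : Q3.BestPhi.Near N := by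
  obtain ⟨r, hr, hv⟩ := h
  intro e g e' g' hle
  have h1 := (hv (e, g)).1
  have h2 := (hv (e', g')).2
  have h3 : r * eucNorm (e, g) ≤ r * (1.14 * eucNorm (e', g')) := by linarith
  have h4 : eucNorm (e, g) ≤ 1.14 * eucNorm (e', g') := le_of_mul_le_mul_left h3 hr
  have h5 := pow_le_pow_left₀ (Real.sqrt_nonneg _ : 0 ≤ eucNorm (e, g)) h4 2
  rw [mul_pow] at h5
  unfold eucNorm at h5
  rw [Real.sq_sqrt (by positivity), Real.sq_sqrt (by positivity)] at h5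
  norm_num at h5 ⊢
  exact h5

theorem best_iff (N : ℝ × ℝ → ℝ) (θ₁ θ₂ : ℝ) (x a b : ℤ) :
    Best N (θ₁, θ₂) (x, a, b) ↔ Q3.BestPhi.BestN N θ₁ θ₂ x a b := by
  unfold Best Q3.BestPhi.BestN
  refine and_congr_right fun _ => ?_
  constructor
  · intro h x' a' b' h1 h2
    have h3 := h (x', a', b') h1 h2
    rw [Prod.ext_iff, Prod.ext_iff, Prod.ext_iff, Prod.ext_iff, Prod.ext_iff, Prod.ext_iff] at h3
    exact h3
  · rintro h ⟨x', a', b'⟩ h1 h2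
    have h3 := h x' a' b' h1 h2
    rw [Prod.ext_iff, Prod.ext_iff, Prod.ext_iff, Prod.ext_iff, Prod.ext_iff, Prod.ext_iff]
    exact h3

theorem close_euc : Close eucNorm := by
  refine ⟨1, one_pos, fun v => ⟨by rw [one_mul], ?_⟩⟩
  have : 0 ≤ eucNorm v := Real.sqrt_nonneg _
  linarith

open Q3.BestPhi in
theorem main {φ : ℝ} (h3 : φ ^ 3 = φ + 1) {N : ℝ × ℝ → ℝ} (hN : Near N) :
    {m | IsDenom N (T1 φ, T2 φ) m}.Infinite ∧
    (∃ c : ℤ, ∀ x y₁ y₂ : ℤ, c ≤ x → (Best N (T1 φ, T2 φ) (x, y₁, y₂) ↔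
      ∃ k : ℕ, x = XX k ∧ y₁ = AA k ∧ y₂ = BB k)) ∧
    Tendsto (fun ν : ℕ => (M N (T1 φ, T2 φ) ν : ℝ) ^ (1 / (ν : ℝ))) atTop (𝓝 φ) := by
  classical
  obtain ⟨Y, hYdef⟩ : ∃ Y : ℕ → ℕ, Y = fun k => (XX k).toNat := ⟨_, rfl⟩
  have hYc : ∀ k, 4 ≤ k → (Y k : ℤ) = XX k := by
    intro k hk
    have := XX_pos k hk
    rw [hYdef]
    exact Int.toNat_of_nonneg this.le
  have hYlt : ∀ k, 40 ≤ k → Y k < Y (k + 1) := by
    intro k hk
    have h1 := hYc k (by omega)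
    have h2 := hYc (k + 1) (by omega)
    have h4 := XX_strict (show 8 ≤ k by omega) (show k < k + 1 by omega)
    omega
  have hp : ∀ k, 40 ≤ k → IsDenom N (T1 φ, T2 φ) (Y k) := by
    intro k hk
    refine ⟨AA k, BB k, ?_⟩
    rw [hYc k (by omega), best_iff]
    exact best_unit h3 hN hk
  have hq : ∀ k, 40 ≤ k → ∀ m, Y k < m → m < Y (k + 1) → ¬ IsDenom N (T1 φ, T2 φ) m := by
    rintro k hk m h1 h2 ⟨a, b, hb⟩
    rw [best_iff] at hb
    have e1 := hYc k (by omega)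
    have e2 := hYc (k + 1) (by omega)
    have := (unit_of_best_near h3 hN hb hk (by omega) (by omega)).1
    omega
  have hnth := nth_shift (IsDenom N (T1 φ, T2 φ)) Y 40 hYlt hp hq
  have hmono : StrictMono fun i => Y (40 + i) := strictMono_nat_of_lt_succ fun i => hYlt (40 + i) (by omega)
  refine ⟨?_, ?_, ?_⟩
  · apply Set.infinite_of_injective_forall_mem hmono.injective
    intro i
    exact hp (40 + i) (by omega)
  · refine ⟨XX 40, fun x a b hx => ?_⟩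
    rw [best_iff]
    constructor
    · intro hb
      obtain ⟨K, hK, k1, k2⟩ := exists_KX x hx
      exact ⟨K, unit_of_best_near h3 hN hb hK k1 k2⟩
    · rintro ⟨k, rfl, rfl, rfl⟩
      by_cases hk : 40 ≤ k
      · exact best_unit h3 hN hk
      · exfalso
        push Not at hk
        have : ∀ k < 40, XX k < XX 40 := by decide +kernel
        have := this k hk
        omega
  · obtain ⟨c, hc⟩ : ∃ c, c = Nat.count (IsDenom N (T1 φ, T2 φ)) (Y 40) := ⟨_, rfl⟩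
    rw [← hc] at hnth
    have hφ := phi_pos h3
    have hlam : 0 < (3 + 2 * φ) / D φ := by have := D_pos h3; positivity
    apply root_tendsto hφ (c₁ := φ / (2 * ((3 + 2 * φ) / D φ)) * (φ ^ 40 / φ ^ (c + 1)))
      (c₂ := 2 * φ / ((3 + 2 * φ) / D φ) * (φ ^ 40 / φ ^ (c + 1))) (by positivity) (by positivity)
    filter_upwards [eventually_ge_atTop (c + 1)] with ν hν
    obtain ⟨i, rfl⟩ : ∃ i, ν = c + 1 + i := ⟨ν - (c + 1), by omega⟩
    have hM : M N (T1 φ, T2 φ) (c + 1 + i) = Y (40 + i) := by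
      unfold M
      rw [show c + 1 + i - 1 = c + i by omega]
      exact hnth i
    have hcast : (M N (T1 φ, T2 φ) (c + 1 + i) : ℝ) = XX (40 + i) := by
      rw [hM]
      exact_mod_cast hYc (40 + i) (by omega)
    obtain ⟨b1, b2⟩ := XX_bounds h3 (show 40 ≤ 40 + i by omega)
    rw [hcast]
    have hpow : φ ^ 40 / φ ^ (c + 1) * φ ^ (c + 1 + i) = φ ^ (40 + i) := by
      rw [pow_add φ (c + 1) i, pow_add φ 40 i]
      field_simp
    constructor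
    · rw [mul_assoc, hpow]; exact b1
    · rw [mul_assoc, hpow]; exact b2

/-- There is one vector `Θ`, with `1, θ₁, θ₂` linearly independent over `ℚ`, such that for all norms
`N` on `ℝ²` with `r |v| ≤ N v ≤ 1.14 r |v|` (`|v|` the Euclidean norm) the roots `M_ν ^ (1/ν)`
converge to the real root `φ = 1.3247…` of `t³ = t + 1`. So `g ≤ φ` for all these norms. -/
theorem result : ∃ φ : ℝ, φ ^ 3 = φ + 1 ∧ 1.3247 < φ ∧ φ < 1.3248 ∧
    (∃ Θ : ℝ × ℝ, (∀ p q r : ℤ, (p : ℝ) + q * Θ.1 + r * Θ.2 = 0 → p = 0 ∧ q = 0 ∧ r = 0) ∧ Star Θ ∧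
      ∀ N : ℝ × ℝ → ℝ, Close N → {m | IsDenom N Θ m}.Infinite ∧
        Tendsto (fun ν : ℕ => (M N Θ ν : ℝ) ^ (1 / (ν : ℝ))) atTop (𝓝 φ) ∧ G N Θ = φ) ∧
    (∀ N : ℝ × ℝ → ℝ, Close N → g N ≤ φ) ∧ g eucNorm ≤ φ := by
  obtain ⟨φ, h3⟩ : ∃ φ : ℝ, φ ^ 3 = φ + 1 := by
    have hc : Continuous fun t : ℝ => t ^ 3 - t - 1 := by fun_prop
    obtain ⟨t, -, ht⟩ := intermediate_value_Icc (show (1 : ℝ) ≤ 2 by norm_num) hc.continuousOn
      (show (0 : ℝ) ∈ Set.Icc ((1 : ℝ) ^ 3 - 1 - 1) ((2 : ℝ) ^ 3 - 2 - 1) by norm_num)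
    exact ⟨t, by simp only at ht; linarith⟩
  have l1 := Q3.BestPhi.lo h3
  have l2 := Q3.BestPhi.hi h3
  have hind := Q3.BestPhi.indepT h3
  have hstar : Star (Q3.BestPhi.T1 φ, Q3.BestPhi.T2 φ) := by
    rintro x hx ⟨a, b, h1, -⟩
    have := hind (-a) x 0 (by push_cast; simp only at h1; linarith)
    exact hx this.2.1
  have hG : ∀ N : ℝ × ℝ → ℝ, Close N → G N (Q3.BestPhi.T1 φ, Q3.BestPhi.T2 φ) = φ := by
    intro N hN
    have h := (main h3 (near_of_close hN)).2.2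
    have h' : Tendsto (fun ν : ℕ => (((M N (Q3.BestPhi.T1 φ, Q3.BestPhi.T2 φ) ν : ℝ) ^ (1 / (ν : ℝ)) : ℝ) : EReal))
        atTop (𝓝 (φ : EReal)) := (continuous_coe_real_ereal.tendsto φ).comp h
    exact h'.liminf_eq
  have hg : ∀ N : ℝ × ℝ → ℝ, Close N → g N ≤ φ := by
    intro N hN
    exact sInf_le ⟨_, hstar, (hG N hN).symm⟩
  refine ⟨φ, h3, by linarith, by linarith, ⟨(Q3.BestPhi.T1 φ, Q3.BestPhi.T2 φ), hind, hstar, fun N hN => ?_⟩, hg,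
    hg _ close_euc⟩
  obtain ⟨m1, -, m3⟩ := main h3 (near_of_close hN)
  exact ⟨m1, m3, hG N hN⟩

end Pool.Agent.Results.MP_7453a1_nt.EuclideanUpperBound
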