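import Mathlib
import Pool.Agent.Q3.BestPhi.SupBest

/-!
# MP_7453a1_nt: `g ≤ √(1 + φ₄)` for the sup norm (`m = 1`, `n = 2`)
-/

set_option autoImplicit false

open Filter Topology

namespace Pool.Agent.Results.MP_7453a1_nt.SupNormUpperBound

/-- The sup norm on `ℝ²`. -/
noncomputable def supNorm (v : ℝ × ℝ) : ℝ := max |v.1| |v.2|

/-- `x Θ` is not an integer vector for any integer `x ≠ 0`. -/
def Star (Θ : ℝ × ℝ) : Prop := ∀ x : ℤ, x ≠ 0 → ¬ ∃ y₁ y₂ : ℤ, x * Θ.1 = y₁ ∧ x * Θ.2 = y₂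

/-- `z = (x, y₁, y₂)` is a best approximation vector to `Θ` for the norm `N`: `x ≠ 0`, and the only
`z' = (x', y')` with `|x'| ≤ |x|` and `N (x' Θ - y') ≤ N (x Θ - y)` are `0` and `± z`. -/
def Best (N : ℝ × ℝ → ℝ) (Θ : ℝ × ℝ) (z : ℤ × ℤ × ℤ) : Prop :=
  z.1 ≠ 0 ∧ ∀ z' : ℤ × ℤ × ℤ, |z'.1| ≤ |z.1| →
    N (z'.1 * Θ.1 - z'.2.1, z'.1 * Θ.2 - z'.2.2) ≤ N (z.1 * Θ.1 - z.2.1, z.1 * Θ.2 - z.2.2) →
      z' = 0 ∨ z' = z ∨ z' = -z

/-- `m` is the first coordinate `|x|` of a best approximation vector (up to sign, `x = m`). -/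
def IsDenom (N : ℝ × ℝ → ℝ) (Θ : ℝ × ℝ) (m : ℕ) : Prop :=
  ∃ y₁ y₂ : ℤ, Best N Θ ((m : ℤ), y₁, y₂)

/-- `M_ν`, `ν ≥ 1`: the `ν`-th smallest first coordinate of a best approximation vector. -/
noncomputable def M (N : ℝ × ℝ → ℝ) (Θ : ℝ × ℝ) (ν : ℕ) : ℕ := Nat.nth (IsDenom N Θ) (ν - 1)

/-- `G(Θ) = liminf M_ν ^ (1/ν)`, in the extended reals. -/
noncomputable def G (N : ℝ × ℝ → ℝ) (Θ : ℝ × ℝ) : EReal :=
  liminf (fun ν : ℕ => (((M N Θ ν : ℝ) ^ (1 / (ν : ℝ)) : ℝ) : EReal)) atTop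

/-- `g`, the infimum of `G(Θ)` over all `Θ` with `(∗)`. -/
noncomputable def g (N : ℝ × ℝ → ℝ) : EReal := sInf {t | ∃ Θ, Star Θ ∧ t = G N Θ}

theorem best_iff (N : ℝ × ℝ → ℝ) (θ₁ θ₂ : ℝ) (x a b : ℤ) :
    Best N (θ₁, θ₂) (x, a, b) ↔ Q3.BestPhi.BestN N θ₁ θ₂ x a b := by
  unfold Best Q3.BestPhi.BestN
  refine and_congr_right fun _ => ?_
  constructor
  · intro h x' a' b' h1 h2
    have h3 := h (x', a', b') h1 h2
    rw [Prod.ext_iff, Prod.ext_iff, Prod.ext_iff, Prod.ext_iff, Prod.ext_iff, Prod.ext_iff] at h3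
    exact h3
  · rintro h ⟨x', a', b'⟩ h1 h2
    have h3 := h x' a' b' h1 h2
    rw [Prod.ext_iff, Prod.ext_iff, Prod.ext_iff, Prod.ext_iff, Prod.ext_iff, Prod.ext_iff]
    exact h3

theorem isSup : Q3.BestPhi.IsSup supNorm := by
  have key : ∀ s t : ℝ, max (s ^ 2) (t ^ 2) = (max |s| |t|) ^ 2 := by
    intro s t
    rcases le_total |s| |t| with h | h
    · rw [max_eq_right h, sq_abs, max_eq_right (sq_le_sq.2 h)]
    · rw [max_eq_left h, sq_abs, max_eq_left (sq_le_sq.2 h)]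
  intro e g e' g'
  rw [key, key]
  unfold supNorm
  simp only
  rw [sq_le_sq, abs_of_nonneg (le_max_of_le_left (abs_nonneg e)),
    abs_of_nonneg (le_max_of_le_left (abs_nonneg e'))]

open Q3.BestPhi in
theorem main {φ : ℝ} (h3 : φ ^ 3 = φ + 1) :
    {m | IsDenom supNorm (T1 φ, T2 φ) m}.Infinite ∧
    ∃ C : ℝ, 0 < C ∧ ∀ ν : ℕ, 1 ≤ ν → (M supNorm (T1 φ, T2 φ) ν : ℝ) ≤ C * √(1 + φ) ^ ν := by
  classical
  have hφ := phi_pos h3
  have l1 := lo h3
  obtain ⟨Y, hYdef⟩ : ∃ Y : ℕ → ℕ, Y = fun k => (XX k).toNat := ⟨_, rfl⟩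
  have hYc : ∀ k, 4 ≤ k → (Y k : ℤ) = XX k := by
    intro k hk
    have := XX_pos k hk
    rw [hYdef]
    exact Int.toNat_of_nonneg this.le
  have hYlt : ∀ a b, 40 ≤ a → a < b → Y a < Y b := by
    intro a b ha hab
    have h1 := hYc a (by omega)
    have h2 := hYc b (by omega)
    have h4 := XX_strict (show 8 ≤ a by omega) hab
    omega
  have hp : ∀ k, 42 ≤ k → ss φ k < ss φ (k - 1) → IsDenom supNorm (T1 φ, T2 φ) (Y k) := by
    intro k hk hr
    refine ⟨AA k, BB k, ?_⟩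
    rw [hYc k (by omega), best_iff]
    exact best_sup h3 isSup hk hr
  -- at least six records among nine
  have hblock : ∀ a, 6 ≤ ((Finset.Ico a (a + 9)).filter fun k => ss φ (k + 1) < ss φ k).card := by
    intro a
    have h9 := nine (fun i => decide (ss φ (a + i) ≤ ss φ (a + i + 1))) (by
      rintro i j hij ⟨hi, hj⟩
      simp only [decide_eq_true_eq] at hi hj
      rcases hij with h | h | h
      · rw [h] at hj
        exact excl1 h3 (a + i) hi (by convert hj using 2 <;> omega)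
      · rw [h] at hj
        exact excl3 h3 (a + i) hi (by convert hj using 2 <;> omega)
      · rw [h] at hj
        exact excl6 h3 (a + i) hi (by convert hj using 2 <;> omega))
    refine h9.trans ?_
    have hinj : Function.Injective fun i : Fin 9 => a + i.val := by
      intro i j h
      simp only at h
      exact Fin.ext (by omega)
    rw [← Finset.card_map ⟨fun i : Fin 9 => a + i.val, hinj⟩]
    apply Finset.card_le_card
    intro x hx
    rw [Finset.mem_map] at hx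
    obtain ⟨i, hi, rfl⟩ := hx
    rw [Finset.mem_filter] at hi ⊢
    have hi2 := hi.2
    simp only [decide_eq_false_iff_not, not_le] at hi2
    refine ⟨?_, hi2⟩
    rw [Finset.mem_Ico]
    simp only [Function.Embedding.coeFn_mk]
    omega
  have hcard : ∀ n, 6 * n ≤ ((Finset.Ico 41 (41 + 9 * n)).filter fun k => ss φ (k + 1) < ss φ k).card := by
    intro n
    induction n with
    | zero => simp
    | succ n ih =>
      have hu : (Finset.Ico 41 (41 + 9 * (n + 1))).filter (fun k => ss φ (k + 1) < ss φ k) =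
          (Finset.Ico 41 (41 + 9 * n)).filter (fun k => ss φ (k + 1) < ss φ k) ∪
          (Finset.Ico (41 + 9 * n) (41 + 9 * n + 9)).filter (fun k => ss φ (k + 1) < ss φ k) := by
        rw [← Finset.filter_union]
        congr 1
        ext x
        simp only [Finset.mem_Ico, Finset.mem_union]
        omega
      rw [hu, Finset.card_union_of_disjoint]
      · have := hblock (41 + 9 * n)
        omega
      · rw [Finset.disjoint_left]
        intro x hx hx'
        rw [Finset.mem_filter, Finset.mem_Ico] at hx hx'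
        omega
  have hcount : ∀ n, 6 * n ≤ Nat.count (IsDenom supNorm (T1 φ, T2 φ)) (Y (42 + 9 * n)) := by
    intro n
    refine (hcard n).trans ?_
    rw [Nat.count_eq_card_filter_range]
    apply Finset.card_le_card_of_injOn (fun k => Y (k + 1))
    · intro k hk
      simp only [Finset.coe_filter, Finset.mem_Ico, Set.mem_ofPred_eq] at hk
      simp only [Finset.coe_filter, Finset.mem_range, Set.mem_ofPred_eq]
      refine ⟨hYlt _ _ (by omega) (by omega), hp (k + 1) (by omega) ?_⟩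
      rw [Nat.add_sub_cancel]
      exact hk.2
    · intro a ha b hb hab
      simp only [Finset.coe_filter, Finset.mem_Ico, Set.mem_ofPred_eq] at ha hb
      simp only at hab
      rcases lt_trichotomy a b with h | h | h
      · have := hYlt (a + 1) (b + 1) (by omega) (by omega)
        omega
      · exact h
      · have := hYlt (b + 1) (a + 1) (by omega) (by omega)
        omega
  refine ⟨?_, ?_⟩
  · by_contra hfin
    rw [Set.not_infinite] at hfin
    have h1 := hcount (hfin.toFinset.card + 1)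
    rw [Nat.count_eq_card_filter_range] at h1
    refine absurd (h1.trans (Finset.card_le_card (t := hfin.toFinset) ?_)) (by omega)
    intro x hx
    rw [Finset.mem_filter] at hx
    rw [Set.Finite.mem_toFinset]
    exact hx.2
  · have hlam : 0 < (3 + 2 * φ) / D φ := by have := D_pos h3; positivity
    have hψ : √(1 + φ) ^ 2 = φ ^ 3 := by rw [Real.sq_sqrt (by linarith), h3]; ring
    have hψ1 : 1 ≤ √(1 + φ) := by rw [Real.one_le_sqrt]; linarith
    refine ⟨2 * φ / ((3 + 2 * φ) / D φ) * φ ^ 51, by positivity, ?_⟩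
    intro ν hν
    have h1 : Nat.nth (IsDenom supNorm (T1 φ, T2 φ)) (ν - 1) < Y (42 + 9 * (ν / 6 + 1)) := by
      apply Nat.nth_lt_of_lt_count
      have := hcount (ν / 6 + 1)
      omega
    have h2 : (M supNorm (T1 φ, T2 φ) ν : ℝ) ≤ XX (42 + 9 * (ν / 6 + 1)) := by
      have h4 := hYc (42 + 9 * (ν / 6 + 1)) (by omega)
      have h5 : (M supNorm (T1 φ, T2 φ) ν : ℤ) ≤ XX (42 + 9 * (ν / 6 + 1)) := by
        rw [← h4]
        unfold M
        exact_mod_cast h1.le
      exact_mod_cast h5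
    refine h2.trans ((XX_bounds h3 (by omega)).2.trans ?_)
    have h6 : φ ^ (42 + 9 * (ν / 6 + 1)) = φ ^ 51 * √(1 + φ) ^ (6 * (ν / 6)) := by
      rw [pow_mul (√(1 + φ)) 6, show √(1 + φ) ^ 6 = (√(1 + φ) ^ 2) ^ 3 by ring, hψ, ← pow_mul, ← pow_mul,
        ← pow_add]
      congr 1
      ring
    rw [h6, mul_assoc]
    apply mul_le_mul_of_nonneg_left _ (by positivity)
    apply mul_le_mul_of_nonneg_left _ (by positivity)
    exact pow_le_pow_right₀ hψ1 (Nat.mul_div_le ν 6)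

/-- There is a vector `Θ`, with `1, θ₁, θ₂` linearly independent over `ℚ`, such that for the sup norm
`G(Θ) ≤ √(1 + φ)`, where `φ = 1.3247…` is the real root of `t³ = t + 1`. So `g ≤ √(1 + φ) < 1.5248`. -/
theorem result : ∃ φ : ℝ, φ ^ 3 = φ + 1 ∧ √(1 + φ) < 1.5248 ∧
    (∃ Θ : ℝ × ℝ, (∀ p q r : ℤ, (p : ℝ) + q * Θ.1 + r * Θ.2 = 0 → p = 0 ∧ q = 0 ∧ r = 0) ∧ Star Θ ∧
      {m | IsDenom supNorm Θ m}.Infinite ∧ G supNorm Θ ≤ √(1 + φ)) ∧
    g supNorm ≤ √(1 + φ) := by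
  obtain ⟨φ, h3⟩ : ∃ φ : ℝ, φ ^ 3 = φ + 1 := by
    have hc : Continuous fun t : ℝ => t ^ 3 - t - 1 := by fun_prop
    obtain ⟨t, -, ht⟩ := intermediate_value_Icc (show (1 : ℝ) ≤ 2 by norm_num) hc.continuousOn
      (show (0 : ℝ) ∈ Set.Icc ((1 : ℝ) ^ 3 - 1 - 1) ((2 : ℝ) ^ 3 - 2 - 1) by norm_num)
    exact ⟨t, by simp only at ht; linarith⟩
  have l1 := Q3.BestPhi.lo h3
  have l2 := Q3.BestPhi.hi h3
  have hind := Q3.BestPhi.indepT h3
  have hstar : Star (Q3.BestPhi.T1 φ, Q3.BestPhi.T2 φ) := by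
    rintro x hx ⟨a, b, h1, -⟩
    have := hind (-a) x 0 (by push_cast; simp only at h1; linarith)
    exact hx this.2.1
  obtain ⟨hinf, C, hC, hM⟩ := main h3
  have hψ0 : 0 < √(1 + φ) := Real.sqrt_pos.2 (by linarith)
  have hG : G supNorm (Q3.BestPhi.T1 φ, Q3.BestPhi.T2 φ) ≤ √(1 + φ) := by
    have ht := Q3.BestPhi.root_tendsto hψ0 hC hC (fun ν : ℕ => C * √(1 + φ) ^ ν)
      (Eventually.of_forall fun ν => ⟨le_rfl, le_rfl⟩)
    have ht' : Tendsto (fun ν : ℕ => (((C * √(1 + φ) ^ ν) ^ (1 / (ν : ℝ)) : ℝ) : EReal)) atTop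
        (𝓝 ((√(1 + φ) : ℝ) : EReal)) := (continuous_coe_real_ereal.tendsto _).comp ht
    rw [← ht'.liminf_eq]
    refine Filter.liminf_le_liminf ?_ (by isBoundedDefault) (by isBoundedDefault)
    filter_upwards [eventually_ge_atTop 1] with ν hν
    rw [EReal.coe_le_coe_iff]
    exact Real.rpow_le_rpow (by positivity) (hM ν hν) (by positivity)
  refine ⟨φ, h3, ?_, ⟨_, hind, hstar, hinf, hG⟩, sInf_le_of_le ⟨_, hstar, rfl⟩ hG⟩
  rw [Real.sqrt_lt' (by norm_num)]
  norm_num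
  linarith

end Pool.Agent.Results.MP_7453a1_nt.SupNormUpperBound
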